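import Pool.Agent.H862R3.Monster.Targets

set_option autoImplicit false

open Pool.Agent.H862R3.Monster

universe u

/-- Super-rigidity of the random monster groups with respect to every biautomatic group. -/
theorem Pool.Agent.Results.MP_ddde08_al.Biautomatic.result :
    ∀ (d k j : ℕ) (_ : 3 ≤ d) (hk : 2 ≤ k) (_ : 1 ≤ j)
      (V : ℕ → Type) [∀ n, Finite (V n)] (Ω : ∀ n, SimpleGraph (V n)),
      Standing Ω → (∀ n v, ((Ω n).neighborSet v).ncard ≤ d) →
      ∀ (G : Type u) [Group G], IsBiautomatic G → SuperRigidFamily (Tpow k j hk) Ω G := by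
  intro d k j _ hk hj V _ Ω hst hdeg G _ hG
  have := hG.countable
  exact family_of_superRigid G (superRigid_of_hereditary G
    (hereditary hk (infinite_not_acyclic hst hdeg) (good_Tpow hk hj) (quot_mem_Ev_Tpow hk) G))
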